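import Pool.Agent.W95.BK.Stm

/-! BK-NPOL: Newton polygon and root counting. -/

open Polynomial

namespace Pool.Agent.W451.BK

open Pool.Agent.W95.BK

universe u

section
variable {K : Type u} [NontriviallyNormedField K] [IsUltrametricDist K]

theorem norm_sum_lt {ι : Type*} (s : Finset ι) (f : ι → K) (B : ℝ) (hB : 0 < B)
    (h : ∀ i ∈ s, ‖f i‖ < B) : ‖∑ i ∈ s, f i‖ < B := by
  classical
  induction s using Finset.induction_on with
  | empty => simpa using hB
  | insert a s ha ih =>
    rw [Finset.sum_insert ha]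
    refine lt_of_le_of_lt (IsUltrametricDist.norm_add_le_max _ _) (max_lt ?_ ?_)
    · exact h a (Finset.mem_insert_self _ _)
    · exact ih fun i hi => h i (Finset.mem_insert_of_mem hi)

theorem norm_add_eq_left {x y : K} (h : ‖y‖ < ‖x‖) : ‖x + y‖ = ‖x‖ := by
  rw [IsUltrametricDist.norm_add_eq_max_of_norm_ne_norm (ne_of_gt h), max_eq_left h.le]

/-- Gauss norm of a polynomial at `0` -/
noncomputable def W (r : ℝ) (g : K[X]) : ℝ := g.gaussNorm (NormedField.toAbsoluteValue K) r

theorem le_W {r : ℝ} (hr : 0 < r) (g : K[X]) (i : ℕ) : ‖g.coeff i‖ * r ^ i ≤ W r g :=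
  le_gaussNorm (NormedField.toAbsoluteValue K) g hr.le i

theorem W_mul {r : ℝ} (hr : 0 < r) (g g' : K[X]) : W r (g * g') = W r g * W r g' :=
  gaussNorm_mul isNonarch hr g g'

theorem exists_W (r : ℝ) (g : K[X]) : ∃ i, W r g = ‖g.coeff i‖ * r ^ i :=
  exists_eq_gaussNorm _ _ _

/-- minimal index -/
def IsMin (r : ℝ) (g : K[X]) (k : ℕ) : Prop :=
  0 < W r g ∧ ‖g.coeff k‖ * r ^ k = W r g ∧ ∀ i < k, ‖g.coeff i‖ * r ^ i < W r g

/-- maximal index -/
def IsMax (r : ℝ) (g : K[X]) (k : ℕ) : Prop :=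
  0 < W r g ∧ ‖g.coeff k‖ * r ^ k = W r g ∧ ∀ i, k < i → ‖g.coeff i‖ * r ^ i < W r g

theorem term_lt {r : ℝ} (hr : 0 < r) {g g' : K[X]} (h0 : 0 < W r g) (h0' : 0 < W r g') {i j : ℕ}
    (h : ‖g.coeff i‖ * r ^ i < W r g ∨ ‖g'.coeff j‖ * r ^ j < W r g') :
    ‖g.coeff i * g'.coeff j‖ < W r g * W r g' / r ^ (i + j) := by
  rw [lt_div_iff₀ (pow_pos hr _), norm_mul, pow_add]
  have e : ‖g.coeff i‖ * ‖g'.coeff j‖ * (r ^ i * r ^ j)
      = (‖g.coeff i‖ * r ^ i) * (‖g'.coeff j‖ * r ^ j) := by ring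
  rw [e]
  have h1 := le_W hr g i
  have h2 := le_W hr g' j
  have p1 : 0 ≤ ‖g.coeff i‖ * r ^ i := by positivity
  have p2 : 0 ≤ ‖g'.coeff j‖ * r ^ j := by positivity
  rcases h with h | h
  · calc _ ≤ (‖g.coeff i‖ * r ^ i) * W r g' := mul_le_mul_of_nonneg_left h2 p1
      _ < _ := mul_lt_mul_of_pos_right h h0'
  · calc _ ≤ W r g * (‖g'.coeff j‖ * r ^ j) := mul_le_mul_of_nonneg_right h1 p2
      _ < _ := mul_lt_mul_of_pos_left h h0

theorem coeff_eq {r : ℝ} (hr : 0 < r) {g g' : K[X]} (h0 : 0 < W r g) (h0' : 0 < W r g') {k l : ℕ}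
    (hk : ‖g.coeff k‖ * r ^ k = W r g) (hl : ‖g'.coeff l‖ * r ^ l = W r g')
    (h : ∀ i j, i + j = k + l → (i, j) ≠ (k, l) →
      ‖g.coeff i‖ * r ^ i < W r g ∨ ‖g'.coeff j‖ * r ^ j < W r g') :
    ‖(g * g').coeff (k + l)‖ * r ^ (k + l) = W r (g * g') := by
  classical
  rw [coeff_mul, W_mul hr]
  have hmem : (k, l) ∈ Finset.HasAntidiagonal.antidiagonal (k + l) := by simp
  rw [← Finset.add_sum_erase _ _ hmem]
  have hkl : ‖g.coeff k * g'.coeff l‖ = W r g * W r g' / r ^ (k + l) := by
    rw [eq_div_iff (pow_pos hr _).ne', norm_mul, pow_add, ← hk, ← hl]; ring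
  have hlt : ‖∑ x ∈ (Finset.HasAntidiagonal.antidiagonal (k + l)).erase (k, l), g.coeff x.1 * g'.coeff x.2‖
      < ‖g.coeff k * g'.coeff l‖ := by
    rw [hkl]
    apply norm_sum_lt
    · positivity
    · intro x hx
      rw [Finset.mem_erase, Finset.HasAntidiagonal.mem_antidiagonal] at hx
      have := term_lt hr h0 h0' (h x.1 x.2 hx.2 hx.1)
      rwa [hx.2] at this
  rw [norm_add_eq_left hlt, hkl, div_mul_cancel₀ _ (pow_pos hr _).ne']

theorem coeff_lt {r : ℝ} (hr : 0 < r) {g g' : K[X]} (h0 : 0 < W r g) (h0' : 0 < W r g') {n : ℕ}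
    (h : ∀ i j, i + j = n →
      ‖g.coeff i‖ * r ^ i < W r g ∨ ‖g'.coeff j‖ * r ^ j < W r g') :
    ‖(g * g').coeff n‖ * r ^ n < W r (g * g') := by
  rw [coeff_mul, W_mul hr, ← lt_div_iff₀ (pow_pos hr _)]
  apply norm_sum_lt
  · positivity
  · intro x hx
    rw [Finset.HasAntidiagonal.mem_antidiagonal] at hx
    have := term_lt hr h0 h0' (h x.1 x.2 hx)
    rwa [hx] at this

theorem IsMin.mul {r : ℝ} (hr : 0 < r) {g g' : K[X]} {k l : ℕ} (h : IsMin r g k)
    (h' : IsMin r g' l) : IsMin r (g * g') (k + l) := by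
  refine ⟨by rw [W_mul hr]; exact mul_pos h.1 h'.1, ?_, ?_⟩
  · apply coeff_eq hr h.1 h'.1 h.2.1 h'.2.1
    intro i j hij hne
    rcases Nat.lt_or_ge i k with h1 | h1
    · left; exact h.2.2 i h1
    · right
      apply h'.2.2 j
      by_contra hc
      apply hne
      have : i = k := by omega
      have : j = l := by omega
      simp [*]
  · intro n hn
    apply coeff_lt hr h.1 h'.1
    intro i j hij
    rcases Nat.lt_or_ge i k with h1 | h1
    · left; exact h.2.2 i h1
    · right; exact h'.2.2 j (by omega)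

theorem IsMax.mul {r : ℝ} (hr : 0 < r) {g g' : K[X]} {k l : ℕ} (h : IsMax r g k)
    (h' : IsMax r g' l) : IsMax r (g * g') (k + l) := by
  refine ⟨by rw [W_mul hr]; exact mul_pos h.1 h'.1, ?_, ?_⟩
  · apply coeff_eq hr h.1 h'.1 h.2.1 h'.2.1
    intro i j hij hne
    rcases Nat.lt_or_ge k i with h1 | h1
    · left; exact h.2.2 i h1
    · right
      apply h'.2.2 j
      by_contra hc
      apply hne
      have : i = k := by omega
      have : j = l := by omega
      simp [*]
  · intro n hn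
    apply coeff_lt hr h.1 h'.1
    intro i j hij
    rcases Nat.lt_or_ge k i with h1 | h1
    · left; exact h.2.2 i h1
    · right; exact h'.2.2 j (by omega)

theorem W_C {r : ℝ} (c : K) : W r (C c) = ‖c‖ := by
  unfold W
  rw [gaussNorm_C]; rfl

theorem isMin_C {r : ℝ} {c : K} (hc : c ≠ 0) : IsMin r (C c) 0 := by
  refine ⟨by rw [W_C]; exact norm_pos_iff.2 hc, by rw [W_C]; simp, fun i hi => by omega⟩

theorem isMax_C {r : ℝ} {c : K} (hc : c ≠ 0) : IsMax r (C c) 0 := by
  refine ⟨by rw [W_C]; exact norm_pos_iff.2 hc, by rw [W_C]; simp, fun i hi => ?_⟩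
  rw [W_C, coeff_C_of_ne_zero (by omega)]
  simpa using hc

theorem lin_coeff (a w : K) : (taylor a (X - C w)).coeff 0 = a - w ∧
    (taylor a (X - C w)).coeff 1 = 1 ∧ ∀ i, 1 < i → (taylor a (X - C w)).coeff i = 0 := by
  have e : taylor a (X - C w) = X + C (a - w) := by
    rw [map_sub, taylor_X, taylor_C, C_sub]; ring
  rw [e]
  refine ⟨by simp, by simp [coeff_C_of_ne_zero], fun i hi => ?_⟩
  rw [coeff_add, coeff_X_of_ne_one (by omega), coeff_C_of_ne_zero (by omega), add_zero]

theorem lin_W {r : ℝ} (hr : 0 < r) (a w : K) : W r (taylor a (X - C w)) = max ‖w - a‖ r := by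
  obtain ⟨h0, h1, h2⟩ := lin_coeff a w
  obtain ⟨i, hi⟩ := exists_W r (taylor a (X - C w))
  have g0 := le_W hr (taylor a (X - C w)) 0
  have g1 := le_W hr (taylor a (X - C w)) 1
  rw [h0, pow_zero, mul_one, norm_sub_rev] at g0
  rw [h1, norm_one, one_mul, pow_one] at g1
  apply le_antisymm _ (max_le g0 g1)
  rcases i with _ | _ | i
  · rw [hi, h0, pow_zero, mul_one, norm_sub_rev]; exact le_max_left _ _
  · rw [hi, zero_add, h1, norm_one, one_mul, pow_one]; exact le_max_right _ _
  · rw [hi, h2 _ (by omega), norm_zero, zero_mul]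
    exact le_trans hr.le (le_max_right _ _)

open Classical in
theorem isMin_lin {r : ℝ} (hr : 0 < r) (a w : K) :
    IsMin r (taylor a (X - C w)) (if ‖w - a‖ < r then 1 else 0) := by
  obtain ⟨h0, h1, h2⟩ := lin_coeff a w
  have hW := lin_W hr a w
  refine ⟨by rw [hW]; exact lt_max_of_lt_right hr, ?_, ?_⟩
  · split_ifs with h
    · rw [hW, h1, norm_one, one_mul, pow_one, max_eq_right h.le]
    · rw [hW, h0, pow_zero, mul_one, norm_sub_rev, max_eq_left (not_lt.1 h)]
  · split_ifs with h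
    · intro i hi
      have : i = 0 := by omega
      subst this
      rw [hW, h0, pow_zero, mul_one, norm_sub_rev, max_eq_right h.le]; exact h
    · intro i hi; omega

open Classical in
theorem isMax_lin {r : ℝ} (hr : 0 < r) (a w : K) :
    IsMax r (taylor a (X - C w)) (if ‖w - a‖ ≤ r then 1 else 0) := by
  obtain ⟨h0, h1, h2⟩ := lin_coeff a w
  have hW := lin_W hr a w
  have hpos : 0 < W r (taylor a (X - C w)) := by rw [hW]; exact lt_max_of_lt_right hr
  refine ⟨hpos, ?_, ?_⟩
  · split_ifs with h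
    · rw [hW, h1, norm_one, one_mul, pow_one, max_eq_right h]
    · rw [hW, h0, pow_zero, mul_one, norm_sub_rev, max_eq_left (not_le.1 h).le]
  · split_ifs with h
    · intro i hi
      rw [h2 i hi, norm_zero, zero_mul]; exact hpos
    · intro i hi
      rcases Nat.lt_or_ge 1 i with h3 | h3
      · rw [h2 i h3, norm_zero, zero_mul]; exact hpos
      · have : i = 1 := by omega
        subst this
        rw [hW, h1, norm_one, one_mul, pow_one, max_eq_left (not_le.1 h).le]
        exact not_le.1 h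

open Classical in
theorem prod_min {r : ℝ} (hr : 0 < r) (a c : K) (hc : c ≠ 0) (s : Multiset K) :
    IsMin r (taylor a (C c * (s.map (fun w => X - C w)).prod))
      (s.filter (fun w => w ∈ {w : K | ‖w - a‖ < r})).card := by
  induction s using Multiset.induction_on with
  | empty =>
    simp only [Multiset.map_zero, Multiset.prod_zero, mul_one, Multiset.filter_zero,
      Multiset.card_zero, taylor_C]
    exact isMin_C hc
  | cons w s ih =>
    have e : C c * ((w ::ₘ s).map (fun w => X - C w)).prod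
        = (X - C w) * (C c * (s.map (fun w => X - C w)).prod) := by
      rw [Multiset.map_cons, Multiset.prod_cons]; ring
    rw [e, taylor_mul]
    have h1 := (isMin_lin hr a w).mul hr ih
    by_cases hw : ‖w - a‖ < r
    · rw [if_pos hw] at h1
      rw [Multiset.filter_cons_of_pos _ (by exact hw), Multiset.card_cons, add_comm]
      exact h1
    · rw [if_neg hw, zero_add] at h1
      rw [Multiset.filter_cons_of_neg _ (by exact hw)]
      exact h1

open Classical in
theorem prod_max {r : ℝ} (hr : 0 < r) (a c : K) (hc : c ≠ 0) (s : Multiset K) :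
    IsMax r (taylor a (C c * (s.map (fun w => X - C w)).prod))
      (s.filter (fun w => w ∈ {w : K | ‖w - a‖ ≤ r})).card := by
  induction s using Multiset.induction_on with
  | empty =>
    simp only [Multiset.map_zero, Multiset.prod_zero, mul_one, Multiset.filter_zero,
      Multiset.card_zero, taylor_C]
    exact isMax_C hc
  | cons w s ih =>
    have e : C c * ((w ::ₘ s).map (fun w => X - C w)).prod
        = (X - C w) * (C c * (s.map (fun w => X - C w)).prod) := by
      rw [Multiset.map_cons, Multiset.prod_cons]; ring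
    rw [e, taylor_mul]
    have h1 := (isMax_lin hr a w).mul hr ih
    by_cases hw : ‖w - a‖ ≤ r
    · rw [if_pos hw] at h1
      rw [Multiset.filter_cons_of_pos _ (by exact hw), Multiset.card_cons, add_comm]
      exact h1
    · rw [if_neg hw, zero_add] at h1
      rw [Multiset.filter_cons_of_neg _ (by exact hw)]
      exact h1

end

theorem main : S_NPOL.{u} := by
  intro K _ _ _ h a r hh hr
  have hprod : h = C h.leadingCoeff * (h.roots.map (fun w => X - C w)).prod :=
    (IsAlgClosed.splits h).eq_prod_roots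
  have hc : h.leadingCoeff ≠ 0 := leadingCoeff_ne_zero.2 hh
  have h1 := prod_min hr a h.leadingCoeff hc h.roots
  have h2 := prod_max hr a h.leadingCoeff hc h.roots
  rw [← hprod] at h1 h2
  exact ⟨h1.1, fun i => le_W hr _ i, h1.2.1, h1.2.2, h2.2.1, h2.2.2⟩

end Pool.Agent.W451.BK
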